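import Pool.Agent.Helper15.T5.Stmts

set_option autoImplicit false

/-!
MP_2f9829_co: almost all cubic graphs are 3-edge-choosable. Module PQ: the vertex polynomial and the
vertex matrix at the maximum.
-/

open Finset MeasureTheory Filter Topology

namespace Pool.Agent.Helper78.T5

open Pool.Agent.Helper15.T4 Pool.Agent.Helper46.T5 Pool.Agent.Helper15.T5

theorem qq_pos : 0 < qq := by
  unfold qq
  positivity

theorem TJ_smul (J : Type) [Fintype J] [DecidableEq J] (s : ℝ) (x : (J → Fin 3) → ℝ) :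
    TJ J (s • x) (s • x) (s • x) = s ^ 3 * TJ J x x x := by
  simp only [TJ, Finset.mul_sum, Pi.smul_apply, smul_eq_mul]
  refine Finset.sum_congr rfl (fun a _ => Finset.sum_congr rfl (fun b _ =>
    Finset.sum_congr rfl (fun c _ => ?_)))
  ring

theorem TJ_cont (J : Type) [Fintype J] [DecidableEq J] :
    Continuous (fun x : (J → Fin 3) → ℝ => TJ J x x x) := by
  unfold TJ
  refine continuous_finsetSum _ (fun a _ => continuous_finsetSum _ (fun b _ =>
    continuous_finsetSum _ (fun c _ => ?_)))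
  exact ((continuous_const.mul (continuous_apply a)).mul (continuous_apply b)).mul
    (continuous_apply c)

theorem R_smul (J : Type) [Fintype J] [DecidableEq J] (s : ℝ) (x : (J → Fin 3) → ℝ) :
    (mJ J).R (s • x) = (s : ℂ) • (mJ J).R x := by
  ext a b
  simp only [Mdl.R, Mdl.l, Matrix.smul_apply, smul_eq_mul, Finset.mul_sum, Pi.smul_apply,
    Complex.ofReal_mul]
  refine Finset.sum_congr rfl (fun c _ => Finset.sum_congr rfl (fun i _ => ?_))
  ring

theorem st_PQ (hA : ST_PMAXR) (hU : ST_UNIQ) (hP : ST_PTV) (hT : ST_TRP) (_hC : ST_CAY)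
    (_hM : ST_MJ) : ST_PQ := by
  intro K
  have hcard : Fintype.card (Fin K × Fin 2) = 2 * K := by
    simp [mul_comm]
  have hq : 0 < qq ^ K := pow_pos qq_pos K
  refine ⟨⟨TJ_cont _, fun s x => TJ_smul _ s x, hq, fun x => ?_, ?_⟩, ?_⟩
  · have h1 := hA (Fin K × Fin 2) K hcard x
    have h2 : (0 : ℝ) ≤ nsq x := Finset.sum_nonneg (fun i _ => sq_nonneg (x i))
    refine abs_le_of_sq_le_sq ?_ (by positivity)
    have h3 : (qq ^ K * Real.sqrt (nsq x) ^ 3) ^ 2 = (qq ^ K) ^ 2 * nsq x ^ 3 := by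
      calc (qq ^ K * Real.sqrt (nsq x) ^ 3) ^ 2 = (qq ^ K) ^ 2 * (Real.sqrt (nsq x) ^ 2) ^ 3 := by
            ring
        _ = _ := by rw [Real.sq_sqrt h2]
    rw [h3]
    exact h1
  · have hSO : ∀ p : Fin K, SO3 ((fun _ => 1 : Fin K → M3) p) := fun p => ⟨by simp, by simp⟩
    obtain ⟨h1, h2, -, -⟩ := hP K (Fin K × Fin 2) (Equiv.refl _) (fun _ => 1) (fun _ => 1) hSO
    refine ⟨pt (Equiv.refl _) (fun _ => 1), h2, ?_⟩
    show |TJ (Fin K × Fin 2) _ _ _| = qq ^ K
    rw [h1, abs_of_pos hq]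
  · intro x hx1 hx2 k
    obtain ⟨s, φ, O, hO, hx⟩ := hU K (Fin K × Fin 2) hcard x hx1 hx2
    have hx' : x = ((s : ℤ) : ℝ) • pt φ O := by
      funext a
      rw [hx a]
      rfl
    have hs : (((s : ℤ) : ℝ)) ^ 3 = ((s : ℤ) : ℝ) := by
      rcases Int.units_eq_one_or s with h | h <;> rw [h] <;> norm_num
    obtain ⟨h1, -, -, -⟩ := hP K (Fin K × Fin 2) φ O O hO
    have h4 := hT K (Fin K × Fin 2) φ O hO k
    rw [hx', R_smul, TJ_smul, smul_pow, Matrix.trace_smul, h4, h1, hs, smul_eq_mul]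
    push_cast
    ring

end Pool.Agent.Helper78.T5
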